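import Mathlib

/-!
# Weak fp-envelopes over `ℤ` are not unique

`D` is the classical divided power algebra in one variable over `ℤ`: free over `ℤ` on
`x^[0], x^[1], ...` with `x^[n] x^[m] = choose (n+m) n x^[n+m]`, `deg x^[n] = n`.
-/

namespace Pool.Agent.Results.MP_c3bf79_al.TwoEnvelopes

/-- `x^[0]` acts as the identity. -/
def UnitLaw {C : ℤ → Type} [∀ j, AddCommGroup (C j)]
    (act : ∀ (n : ℕ) (i j : ℤ), i + n = j → C i →+ C j) : Prop :=
  ∀ (i : ℤ) (h : i + ((0 : ℕ) : ℤ) = i) (x : C i), act 0 i i h x = x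

/-- `x^[m] (x^[n] y) = choose (n+m) n • x^[n+m] y`. -/
def ProductLaw {C : ℤ → Type} [∀ j, AddCommGroup (C j)]
    (act : ∀ (n : ℕ) (i j : ℤ), i + n = j → C i →+ C j) : Prop :=
  ∀ (n m : ℕ) (i j k : ℤ) (h : i + n = j) (h' : j + m = k)
    (h'' : i + ((n + m : ℕ) : ℤ) = k) (x : C i),
    act m j k h' (act n i j h x) = (n + m).choose n • act (n + m) i k h'' x

/-- A `ℤ`-graded `D`-module: abelian groups `M_j` and additive maps
`x^[n] : M_i → M_{i+n}` with `x^[0] = id` and `x^[m] x^[n] = choose (n+m) n • x^[n+m]`. -/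
structure GMod where
  /-- the component of degree `j` -/
  carrier : ℤ → Type
  /-- it is an abelian group -/
  [grp : ∀ j, AddCommGroup (carrier j)]
  /-- multiplication by `x^[n]`, from degree `i` to degree `j = i + n` -/
  act : ∀ (n : ℕ) (i j : ℤ), i + n = j → carrier i →+ carrier j
  act_zero : UnitLaw act
  act_act : ProductLaw act

attribute [instance] GMod.grp

/-- Degree-preserving maps of graded `D`-modules. -/
structure Hom (M N : GMod) where
  /-- the components -/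
  f : ∀ j, M.carrier j →+ N.carrier j
  comm : ∀ (n : ℕ) (i j : ℤ) (h : i + n = j) (x : M.carrier i),
    f j (M.act n i j h x) = N.act n i j h (f i x)

/-- `M` and `N` are isomorphic as graded `D`-modules. -/
def Iso (M N : GMod) : Prop :=
  ∃ (f : Hom M N) (g : Hom N M), (∀ j x, g.f j (f.f j x) = x) ∧ (∀ j y, f.f j (g.f j y) = y)

theorem choose_id (i j k : ℤ) (n m : ℕ) (h : i + n = j) (h' : j + m = k) :
    k.toNat.choose m * j.toNat.choose n = (n + m).choose n * k.toNat.choose (n + m) := by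
  rcases lt_or_ge i 0 with hi | hi
  · rcases lt_or_ge k 0 with hk | hk
    · have e1 : k.toNat = 0 := by omega
      have e2 : j.toNat = 0 := by omega
      rw [e1, e2]
      rcases Nat.eq_zero_or_pos n with rfl | hn
      · rcases Nat.eq_zero_or_pos m with rfl | hm
        · simp
        · rw [Nat.choose_eq_zero_of_lt hm, Nat.choose_eq_zero_of_lt (by omega : 0 < 0 + m)]
          simp
      · rw [Nat.choose_eq_zero_of_lt hn, Nat.choose_eq_zero_of_lt (by omega : 0 < n + m)]
        simp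
    · rw [Nat.choose_eq_zero_of_lt (by omega : k.toNat < n + m)]
      rcases lt_or_ge j 0 with hj | hj
      · rw [Nat.choose_eq_zero_of_lt (by omega : k.toNat < m)]
        simp
      · rw [Nat.choose_eq_zero_of_lt (by omega : j.toNat < n)]
        simp
  · obtain ⟨I, rfl⟩ := Int.eq_ofNat_of_zero_le hi
    have e1 : j.toNat = I + n := by omega
    have e2 : k.toNat = I + n + m := by omega
    rw [e1, e2]
    have := Nat.choose_mul (n := I + n + m) (k := n + m) (s := m) (by omega)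
    have e3 : I + n + m - m = I + n := by omega
    have e4 : n + m - m = n := by omega
    rw [e3, e4] at this
    rw [← this, mul_comm, Nat.choose_symm_add]

theorem freeGrp_add {r : ℕ} (g : Fin r → ℤ) (j : ℤ) {a b : Fin r → ℤ}
    (ha : ∀ t, j < g t → a t = 0) (hb : ∀ t, j < g t → b t = 0) (t : Fin r) (ht : j < g t) :
    (a + b) t = 0 := by
  simp [ha t ht, hb t ht]

theorem freeGrp_neg {r : ℕ} (g : Fin r → ℤ) (j : ℤ) {a : Fin r → ℤ}
    (ha : ∀ t, j < g t → a t = 0) (t : Fin r) (ht : j < g t) : (-a) t = 0 := by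
  simp [ha t ht]

/-- Degree `j` of the free module `⨁ D[-g_t]`: the integer vectors `a` (standing for
`∑ a_t x^[j - g_t] e_t`) with `a_t = 0` whenever `j < g_t`. -/
def freeGrp {r : ℕ} (g : Fin r → ℤ) (j : ℤ) : AddSubgroup (Fin r → ℤ) where
  carrier := {a | ∀ t, j < g t → a t = 0}
  zero_mem' := fun _ _ => rfl
  add_mem' := fun ha hb => freeGrp_add g j ha hb
  neg_mem' := fun ha => freeGrp_neg g j ha

theorem freeAct_mem {r : ℕ} (g : Fin r → ℤ) (n : ℕ) (i j : ℤ) (h : i + n = j)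
    (a : freeGrp g i) :
    (fun t => ((j - g t).toNat.choose n : ℤ) * a.1 t) ∈ freeGrp g j := by
  intro t ht
  have := a.2 t (by omega)
  simp [this]

/-- Multiplication by `x^[n]` on the free module: `x^[n] x^[i - g_t] = choose (j - g_t) n
x^[j - g_t]` for `j = i + n`. -/
def freeAct {r : ℕ} (g : Fin r → ℤ) (n : ℕ) (i j : ℤ) (h : i + n = j) :
    freeGrp g i →+ freeGrp g j :=
  ((AddMonoidHom.mulLeft (fun t => ((j - g t).toNat.choose n : ℤ))).comp
    (freeGrp g i).subtype).codRestrict (freeGrp g j) (freeAct_mem g n i j h)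

theorem freeAct_zero {r : ℕ} (g : Fin r → ℤ) : UnitLaw (freeAct g) := by
  intro i h x
  ext t
  change ((i - g t).toNat.choose 0 : ℤ) * x.1 t = x.1 t
  simp

theorem freeAct_act {r : ℕ} (g : Fin r → ℤ) : ProductLaw (freeAct g) := by
  intro n m i j k h h' h'' x
  ext t
  have := choose_id (i - g t) (j - g t) (k - g t) n m (by omega) (by omega)
  have e : ((k - g t).toNat.choose m : ℤ) * ((j - g t).toNat.choose n : ℤ) =
    ((n + m).choose n : ℤ) * ((k - g t).toNat.choose (n + m) : ℤ) := by exact_mod_cast this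
  change ((k - g t).toNat.choose m : ℤ) * (((j - g t).toNat.choose n : ℤ) * x.1 t) =
    ((n + m).choose n • (fun t => ((k - g t).toNat.choose (n + m) : ℤ) * x.1 t)) t
  rw [← mul_assoc, e]
  simp [mul_assoc]

/-- The free graded module `⨁ D[-g_t]`. -/
def free {r : ℕ} (g : Fin r → ℤ) : GMod where
  carrier j := freeGrp g j
  act := freeAct g
  act_zero := freeAct_zero g
  act_act := freeAct_act g

/-- Finitely presented: the cokernel of a degree-preserving map between finite direct sums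
of shifted free modules. -/
def FinPres (N : GMod) : Prop :=
  ∃ (r s : ℕ) (g : Fin r → ℤ) (ρ : Fin s → ℤ) (φ : Hom (free ρ) (free g)) (π : Hom (free g) N),
    (∀ j, Function.Surjective (π.f j)) ∧ ∀ j x, π.f j x = 0 ↔ ∃ y, φ.f j y = x

theorem truncGrp_add (n : ℤ) (M : GMod) (j : ℤ) {a b : M.carrier j}
    (ha : j < n → a = 0) (hb : j < n → b = 0) (h : j < n) : a + b = 0 := by
  simp [ha h, hb h]

theorem truncGrp_neg (n : ℤ) (M : GMod) (j : ℤ) {a : M.carrier j}
    (ha : j < n → a = 0) (h : j < n) : -a = 0 := by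
  simp [ha h]

/-- Degree `j` of the truncation: all of `M_j` if `j ≥ n`, and `0` if `j < n`. -/
def truncGrp (n : ℤ) (M : GMod) (j : ℤ) : AddSubgroup (M.carrier j) where
  carrier := {x | j < n → x = 0}
  zero_mem' := fun _ => rfl
  add_mem' := fun ha hb => truncGrp_add n M j ha hb
  neg_mem' := fun ha => truncGrp_neg n M j ha

theorem truncAct_mem (n : ℤ) (M : GMod) (m : ℕ) (i j : ℤ) (h : i + m = j)
    (x : truncGrp n M i) : M.act m i j h x.1 ∈ truncGrp n M j := by
  intro hj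
  rw [x.2 (by omega)]
  simp

/-- Multiplication by `x^[m]` on the truncation: the restriction of that of `M`. -/
def truncAct (n : ℤ) (M : GMod) (m : ℕ) (i j : ℤ) (h : i + m = j) :
    truncGrp n M i →+ truncGrp n M j :=
  ((M.act m i j h).comp (truncGrp n M i).subtype).codRestrict (truncGrp n M j)
    (truncAct_mem n M m i j h)

theorem truncAct_zero (n : ℤ) (M : GMod) : UnitLaw (truncAct n M) := by
  intro i h x
  exact Subtype.ext (M.act_zero i h x.1)

theorem truncAct_act (n : ℤ) (M : GMod) : ProductLaw (truncAct n M) := by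
  intro a b i j k h h' h'' x
  exact Subtype.ext (M.act_act a b i j k h h' h'' x.1)

/-- The truncation `τ_{≥ n}(M) = ⨁_{j ≥ n} M_j`, a graded submodule of `M`. -/
def trunc (n : ℤ) (M : GMod) : GMod where
  carrier j := truncGrp n M j
  act := truncAct n M
  act_zero := truncAct_zero n M
  act_act := truncAct_act n M

/-- `N` is a weak fp-envelope of `M`: it is finitely presented and
`τ_{≥ n}(M) ≅ τ_{≥ n}(N)` for some integer `n`. -/
def IsEnvelope (M N : GMod) : Prop :=
  FinPres N ∧ ∃ n : ℤ, Iso (trunc n M) (trunc n N)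

/-- `M` is nearly finitely presented. -/
def Nfp (M : GMod) : Prop := ∃ N, IsEnvelope M N

/-! ### The two modules -/

/-- Degree `j` part of the submodule of `D e ⊕ D f` generated by
`x^[1] e, x^[5] f, x^[25] (e + u f), 5 x^[25] e, 5 x^[25] f`. -/
def L (u : ℤ) (j : ℤ) : AddSubgroup (ℤ × ℤ) where
  carrier := {p | j < 0 ∨ ∃ y0 y1 y2 y3 y4 : ℤ,
    p.1 = (j.toNat.choose 1 : ℤ) * y0 + (j.toNat.choose 25 : ℤ) * (y2 + 5 * y3) ∧
    p.2 = (j.toNat.choose 5 : ℤ) * y1 + (j.toNat.choose 25 : ℤ) * (u * y2 + 5 * y4)}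
  zero_mem' := Or.inr ⟨0, 0, 0, 0, 0, by simp, by simp⟩
  add_mem' := by
    rintro ⟨a, b⟩ ⟨c, d⟩ (h | ⟨y0, y1, y2, y3, y4, h1, h2⟩) (h' | ⟨z0, z1, z2, z3, z4, h1', h2'⟩)
    · exact Or.inl h
    · exact Or.inl h
    · exact Or.inl h'
    · right
      refine ⟨y0 + z0, y1 + z1, y2 + z2, y3 + z3, y4 + z4, ?_, ?_⟩
      · simp only [Prod.mk_add_mk] at *; rw [h1, h1']; ring
      · simp only [Prod.mk_add_mk] at *; rw [h2, h2']; ring
  neg_mem' := by
    rintro ⟨a, b⟩ (h | ⟨y0, y1, y2, y3, y4, h1, h2⟩)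
    · exact Or.inl h
    · right
      refine ⟨-y0, -y1, -y2, -y3, -y4, ?_, ?_⟩
      · simp only [Prod.neg_mk] at *; rw [h1]; ring
      · simp only [Prod.neg_mk] at *; rw [h2]; ring

theorem mem_L {u j : ℤ} {p : ℤ × ℤ} : p ∈ L u j ↔ (j < 0 ∨ ∃ y0 y1 y2 y3 y4 : ℤ,
    p.1 = (j.toNat.choose 1 : ℤ) * y0 + (j.toNat.choose 25 : ℤ) * (y2 + 5 * y3) ∧
    p.2 = (j.toNat.choose 5 : ℤ) * y1 + (j.toNat.choose 25 : ℤ) * (u * y2 + 5 * y4)) := Iff.rfl

/-- `choose (I+n) n * choose I s = choose (I+n) s * choose (I+n-s) n`. -/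
theorem choose_swap (I n s : ℕ) :
    (I + n).choose n * I.choose s = (I + n).choose s * (I + n - s).choose n := by
  rcases le_or_gt s I with h | h
  · obtain ⟨t, rfl⟩ := Nat.exists_eq_add_of_le h
    have h1 := choose_id (t : ℤ) ((t : ℤ) + s) ((t : ℤ) + s + n) s n (by simp) (by simp)
    have h2 := choose_id (t : ℤ) ((t : ℤ) + n) ((t : ℤ) + n + s) n s (by simp) (by simp)
    have e1 : ((t : ℤ) + s + n).toNat = s + t + n := by omega
    have e2 : ((t : ℤ) + n + s).toNat = s + t + n := by omega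
    have e3 : ((t : ℤ) + s).toNat = s + t := by omega
    have e4 : ((t : ℤ) + n).toNat = s + t + n - s := by omega
    rw [e1, e3] at h1
    rw [e2, e4] at h2
    rw [h1, h2, Nat.choose_symm_add, Nat.add_comm n s]
  · rw [Nat.choose_eq_zero_of_lt h]
    rcases Nat.eq_zero_or_pos n with rfl | hn
    · rw [Nat.add_zero, Nat.choose_eq_zero_of_lt h]; simp
    · rw [Nat.choose_eq_zero_of_lt (by omega : I + n - s < n)]; simp

/-- Multiplication by an integer on `ℤ × ℤ`. -/
def mulHom (c : ℤ) : ℤ × ℤ →+ ℤ × ℤ where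
  toFun p := (c * p.1, c * p.2)
  map_zero' := by simp
  map_add' p q := by ext <;> simp [mul_add]

theorem act_le (u : ℤ) (n : ℕ) (i j : ℤ) (h : i + n = j) :
    L u i ≤ (L u j).comap (mulHom (j.toNat.choose n : ℤ)) := by
  rintro ⟨a, b⟩ hp
  rw [AddSubgroup.mem_comap, mem_L]
  rcases lt_or_ge j 0 with hj | hj
  · exact Or.inl hj
  right
  rcases hp with hi | ⟨y0, y1, y2, y3, y4, h1, h2⟩
  · refine ⟨0, 0, 0, 0, 0, ?_, ?_⟩ <;>
      simp [mulHom, Nat.choose_eq_zero_of_lt (by omega : j.toNat < n)]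
  · rcases lt_or_ge i 0 with hi | hi
    · refine ⟨0, 0, 0, 0, 0, ?_, ?_⟩ <;>
        simp [mulHom, Nat.choose_eq_zero_of_lt (by omega : j.toNat < n)]
    · obtain ⟨I, rfl⟩ := Int.eq_ofNat_of_zero_le hi
      have e : j.toNat = I + n := by omega
      rw [e]
      have k1 : ((I + n).choose n : ℤ) * (I.choose 1 : ℤ) =
        ((I + n).choose 1 : ℤ) * ((I + n - 1).choose n : ℤ) := by
        exact_mod_cast choose_swap I n 1
      have k5 : ((I + n).choose n : ℤ) * (I.choose 5 : ℤ) =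
        ((I + n).choose 5 : ℤ) * ((I + n - 5).choose n : ℤ) := by
        exact_mod_cast choose_swap I n 5
      have k25 : ((I + n).choose n : ℤ) * (I.choose 25 : ℤ) =
        ((I + n).choose 25 : ℤ) * ((I + n - 25).choose n : ℤ) := by
        exact_mod_cast choose_swap I n 25
      simp only [Int.toNat_natCast] at h1 h2
      refine ⟨((I + n - 1).choose n : ℤ) * y0, ((I + n - 5).choose n : ℤ) * y1,
        ((I + n - 25).choose n : ℤ) * y2, ((I + n - 25).choose n : ℤ) * y3,
        ((I + n - 25).choose n : ℤ) * y4, ?_, ?_⟩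
      · change ((I + n).choose n : ℤ) * a = _
        rw [h1, mul_add, ← mul_assoc, k1, ← mul_assoc, k25]; ring
      · change ((I + n).choose n : ℤ) * b = _
        rw [h2, mul_add, ← mul_assoc, k5, ← mul_assoc, k25]; ring

/-- The graded module `N_u = D² / (x^[1] e, x^[5] f, x^[25] (e + u f), 5 x^[25] e, 5 x^[25] f)`. -/
def Nmod (u : ℤ) : GMod where
  carrier j := (ℤ × ℤ) ⧸ L u j
  act n i j h := QuotientAddGroup.map _ _ (mulHom (j.toNat.choose n : ℤ)) (act_le u n i j h)
  act_zero i h x := by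
    induction x using QuotientAddGroup.induction_on with
    | H p =>
      rw [QuotientAddGroup.map_mk]
      congr 1
      ext <;> simp [mulHom]
  act_act n m i j k h h' h'' x := by
    induction x using QuotientAddGroup.induction_on with
    | H p =>
      have := choose_id i j k n m h h'
      have e : (k.toNat.choose m : ℤ) * (j.toNat.choose n : ℤ) =
        ((n + m).choose n : ℤ) * (k.toNat.choose (n + m) : ℤ) := by exact_mod_cast this
      rw [QuotientAddGroup.map_mk, QuotientAddGroup.map_mk, QuotientAddGroup.map_mk,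
        ← QuotientAddGroup.mk_nsmul]
      congr 1
      ext
      · simp only [mulHom, AddMonoidHom.coe_mk, ZeroHom.coe_mk, Prod.smul_mk, nsmul_eq_mul]
        rw [← mul_assoc, e, mul_assoc]
      · simp only [mulHom, AddMonoidHom.coe_mk, ZeroHom.coe_mk, Prod.smul_mk, nsmul_eq_mul]
        rw [← mul_assoc, e, mul_assoc]

theorem act_mk (u : ℤ) (n : ℕ) (i j : ℤ) (h : i + n = j) (a b : ℤ) :
    (Nmod u).act n i j h (QuotientAddGroup.mk (s := L u i) (a, b)) =
      QuotientAddGroup.mk (s := L u j)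
        ((j.toNat.choose n : ℤ) * a, (j.toNat.choose n : ℤ) * b) := rfl

/-- The degrees of the generators. -/
def g0 : Fin 2 → ℤ := fun _ => 0

/-- The degrees of the relations. -/
def rho0 : Fin 5 → ℤ := ![1, 5, 25, 25, 25]

theorem swap' (i j : ℤ) (n s : ℕ) (h : i + n = j) (y : ℤ) (hy : i < s → y = 0) :
    (j.toNat.choose s : ℤ) * (((j - s).toNat.choose n : ℤ) * y) =
      (j.toNat.choose n : ℤ) * ((i.toNat.choose s : ℤ) * y) := by
  rcases lt_or_ge i s with hi | hi
  · rw [hy hi]; simp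
  · obtain ⟨I, rfl⟩ := Int.eq_ofNat_of_zero_le (le_trans (Int.natCast_nonneg s) hi)
    have e1 : j.toNat = I + n := by omega
    have e2 : (j - s).toNat = I + n - s := by omega
    have e : ((I + n).choose n : ℤ) * (I.choose s : ℤ) =
        ((I + n).choose s : ℤ) * ((I + n - s).choose n : ℤ) := by
        exact_mod_cast choose_swap I n s
    rw [e1, e2, ← mul_assoc, ← e, Int.toNat_natCast]
    ring

/-- The relation matrix as a map of free modules. -/
def relHom (u : ℤ) : Hom (free rho0) (free g0) where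
  f j :=
    { toFun := fun y => ⟨![(j.toNat.choose 1 : ℤ) * y.1 0 +
          (j.toNat.choose 25 : ℤ) * (y.1 2 + 5 * y.1 3),
          (j.toNat.choose 5 : ℤ) * y.1 1 +
          (j.toNat.choose 25 : ℤ) * (u * y.1 2 + 5 * y.1 4)], fun t ht => by
        have h0 : y.1 0 = 0 := y.2 0 (by simp only [g0, rho0] at *; simp; omega)
        have h1 : y.1 1 = 0 := y.2 1 (by simp only [g0, rho0] at *; simp; omega)
        have h2 : y.1 2 = 0 := y.2 2 (by simp only [g0, rho0] at *; simp; omega)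
        have h3 : y.1 3 = 0 := y.2 3 (by simp only [g0, rho0] at *; simp; omega)
        have h4 : y.1 4 = 0 := y.2 4 (by simp only [g0, rho0] at *; simp; omega)
        rw [h0, h1, h2, h3, h4]
        fin_cases t <;> simp⟩
      map_zero' := by
        refine Subtype.ext (funext fun t => ?_)
        fin_cases t
        · change (j.toNat.choose 1 : ℤ) * 0 + (j.toNat.choose 25 : ℤ) * (0 + 5 * 0) = 0
          ring
        · change (j.toNat.choose 5 : ℤ) * 0 + (j.toNat.choose 25 : ℤ) * (u * 0 + 5 * 0) = 0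
          ring
      map_add' := fun a b => by
        refine Subtype.ext (funext fun t => ?_)
        fin_cases t
        · change (j.toNat.choose 1 : ℤ) * (a.1 0 + b.1 0) +
            (j.toNat.choose 25 : ℤ) * ((a.1 2 + b.1 2) + 5 * (a.1 3 + b.1 3)) =
            ((j.toNat.choose 1 : ℤ) * a.1 0 + (j.toNat.choose 25 : ℤ) * (a.1 2 + 5 * a.1 3)) +
            ((j.toNat.choose 1 : ℤ) * b.1 0 + (j.toNat.choose 25 : ℤ) * (b.1 2 + 5 * b.1 3))
          ring
        · change (j.toNat.choose 5 : ℤ) * (a.1 1 + b.1 1) +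
            (j.toNat.choose 25 : ℤ) * (u * (a.1 2 + b.1 2) + 5 * (a.1 4 + b.1 4)) =
            ((j.toNat.choose 5 : ℤ) * a.1 1 + (j.toNat.choose 25 : ℤ) * (u * a.1 2 + 5 * a.1 4)) +
            ((j.toNat.choose 5 : ℤ) * b.1 1 + (j.toNat.choose 25 : ℤ) * (u * b.1 2 + 5 * b.1 4))
          ring }
  comm n i j h y := by
    refine Subtype.ext (funext fun t => ?_)
    have s0 := swap' i j n 1 h (y.1 0) (fun hh => y.2 0 (by simp [rho0]; omega))
    have s1 := swap' i j n 5 h (y.1 1) (fun hh => y.2 1 (by simp [rho0]; omega))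
    have s2 := swap' i j n 25 h (y.1 2) (fun hh => y.2 2 (by simp [rho0]; omega))
    have s3 := swap' i j n 25 h (y.1 3) (fun hh => y.2 3 (by simp [rho0]; omega))
    have s4 := swap' i j n 25 h (y.1 4) (fun hh => y.2 4 (by simp [rho0]; omega))
    push_cast at s0 s1 s2 s3 s4
    fin_cases t
    · change (j.toNat.choose 1 : ℤ) * (((j - 1).toNat.choose n : ℤ) * y.1 0) +
          (j.toNat.choose 25 : ℤ) * (((j - 25).toNat.choose n : ℤ) * y.1 2 +
            5 * (((j - 25).toNat.choose n : ℤ) * y.1 3)) =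
        ((j - 0).toNat.choose n : ℤ) * ((i.toNat.choose 1 : ℤ) * y.1 0 +
          (i.toNat.choose 25 : ℤ) * (y.1 2 + 5 * y.1 3))
      rw [sub_zero]
      linear_combination s0 + s2 + 5 * s3
    · change (j.toNat.choose 5 : ℤ) * (((j - 5).toNat.choose n : ℤ) * y.1 1) +
          (j.toNat.choose 25 : ℤ) * (u * (((j - 25).toNat.choose n : ℤ) * y.1 2) +
            5 * (((j - 25).toNat.choose n : ℤ) * y.1 4)) =
        ((j - 0).toNat.choose n : ℤ) * ((i.toNat.choose 5 : ℤ) * y.1 1 +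
          (i.toNat.choose 25 : ℤ) * (u * y.1 2 + 5 * y.1 4))
      rw [sub_zero]
      linear_combination s1 + u * s2 + 5 * s4

/-- The quotient map. -/
def quoHom (u : ℤ) : Hom (free g0) (Nmod u) where
  f j :=
    { toFun := fun a => QuotientAddGroup.mk (s := L u j) (a.1 0, a.1 1)
      map_zero' := rfl
      map_add' := fun a b => rfl }
  comm n i j h a := by
    change QuotientAddGroup.mk (s := L u j) (((j - 0).toNat.choose n : ℤ) * a.1 0,
      ((j - 0).toNat.choose n : ℤ) * a.1 1) = QuotientAddGroup.mk (s := L u j)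
        ((j.toNat.choose n : ℤ) * a.1 0, (j.toNat.choose n : ℤ) * a.1 1)
    rw [sub_zero]

theorem finPres (u : ℤ) : FinPres (Nmod u) := by
  refine ⟨2, 5, g0, rho0, relHom u, quoHom u, ?_, ?_⟩
  · intro j x
    induction x using QuotientAddGroup.induction_on with
    | H p =>
      rcases lt_or_ge j 0 with hj | hj
      · refine ⟨0, ?_⟩
        rw [map_zero]
        exact ((QuotientAddGroup.eq_zero_iff p).2 (Or.inl hj)).symm
      · exact ⟨⟨![p.1, p.2], fun t ht => absurd ht (not_lt.2 hj)⟩, rfl⟩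
  · intro j x
    change QuotientAddGroup.mk (s := L u j) (x.1 0, x.1 1) = 0 ↔ _
    rw [QuotientAddGroup.eq_zero_iff]
    constructor
    · rintro (hj | ⟨y0, y1, y2, y3, y4, h1, h2⟩)
      · refine ⟨0, ?_⟩
        rw [map_zero]
        exact Subtype.ext (funext fun t => (x.2 t hj).symm)
      · have h1' : x.1 0 = (j.toNat.choose 1 : ℤ) * y0 +
          (j.toNat.choose 25 : ℤ) * (y2 + 5 * y3) := h1
        have h2' : x.1 1 = (j.toNat.choose 5 : ℤ) * y1 +
          (j.toNat.choose 25 : ℤ) * (u * y2 + 5 * y4) := h2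
        have c1 : ∀ y : ℤ, (j.toNat.choose 1 : ℤ) * (if j < 1 then 0 else y) =
            (j.toNat.choose 1 : ℤ) * y := by
          intro y
          split_ifs with hh
          · rw [Nat.choose_eq_zero_of_lt (by omega : j.toNat < 1)]; simp
          · rfl
        have c5 : ∀ y : ℤ, (j.toNat.choose 5 : ℤ) * (if j < 5 then 0 else y) =
            (j.toNat.choose 5 : ℤ) * y := by
          intro y
          split_ifs with hh
          · rw [Nat.choose_eq_zero_of_lt (by omega : j.toNat < 5)]; simp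
          · rfl
        have c25 : ∀ y : ℤ, (j.toNat.choose 25 : ℤ) * (if j < 25 then 0 else y) =
            (j.toNat.choose 25 : ℤ) * y := by
          intro y
          split_ifs with hh
          · rw [Nat.choose_eq_zero_of_lt (by omega : j.toNat < 25)]; simp
          · rfl
        refine ⟨⟨![if j < 1 then 0 else y0, if j < 5 then 0 else y1, if j < 25 then 0 else y2,
          if j < 25 then 0 else y3, if j < 25 then 0 else y4], fun t ht => ?_⟩, ?_⟩
        · fin_cases t
          · exact if_pos ht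
          · exact if_pos ht
          · exact if_pos ht
          · exact if_pos ht
          · exact if_pos ht
        · refine Subtype.ext (funext fun t => ?_)
          fin_cases t
          · change (j.toNat.choose 1 : ℤ) * (if j < 1 then 0 else y0) +
              (j.toNat.choose 25 : ℤ) * ((if j < 25 then 0 else y2) +
                5 * (if j < 25 then 0 else y3)) = x.1 0
            linear_combination c1 y0 + c25 y2 + 5 * c25 y3 - h1'
          · change (j.toNat.choose 5 : ℤ) * (if j < 5 then 0 else y1) +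
              (j.toNat.choose 25 : ℤ) * (u * (if j < 25 then 0 else y2) +
                5 * (if j < 25 then 0 else y4)) = x.1 1
            linear_combination c5 y1 + u * c25 y2 + 5 * c25 y4 - h2'
    · rintro ⟨y, rfl⟩
      exact Or.inr ⟨y.1 0, y.1 1, y.1 2, y.1 3, y.1 4, rfl, rfl⟩

/-! ### The truncations are isomorphic -/

/-- Multiplication by `1` and `c`. -/
def diag (c : ℤ) : ℤ × ℤ →+ ℤ × ℤ where
  toFun p := (p.1, c * p.2)
  map_zero' := by simp
  map_add' p q := by ext <;> simp [mul_add]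

theorem exists_unit (j : ℕ) : ∃ c c' : ℤ, 5 ∣ c - 2 ∧ 5 ∣ c * c' - 1 ∧
    (5 ≤ j → ((5 ^ (j.choose 5).factorization 5 : ℕ) : ℤ) ∣ c - 2 ∧
      ((j.choose 5 / 5 ^ (j.choose 5).factorization 5 : ℕ) : ℤ) ∣ c - 1 ∧
      ((j.choose 5 : ℕ) : ℤ) ∣ c * c' - 1) := by
  rcases lt_or_ge j 5 with hj | hj
  · exact ⟨2, 3, by norm_num, by norm_num, fun h => by omega⟩
  · have hB : j.choose 5 ≠ 0 := (Nat.choose_pos hj).ne'
    set B := j.choose 5 with hBdef
    set P := 5 ^ B.factorization 5 with hP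
    set Q := B / P with hQ
    have hPQ : P * Q = B := Nat.ordProj_mul_ordCompl_eq_self B 5
    have hcop : Nat.Coprime 5 Q := Nat.coprime_ordCompl (by norm_num) hB
    have hcop' : Nat.Coprime (5 * P) Q := by
      have : Nat.Coprime (5 ^ (B.factorization 5 + 1)) Q := Nat.Coprime.pow_left _ hcop
      rwa [pow_succ, mul_comm] at this
    have hQ0 : Q ≠ 0 := by
      rintro h
      rw [h, mul_zero] at hPQ
      exact hB hPQ.symm
    obtain ⟨c, hc1, hc2⟩ := Nat.chineseRemainder hcop' 2 1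
    have d1 : ((5 * P : ℕ) : ℤ) ∣ (c : ℤ) - 2 := by
      have := (Nat.modEq_iff_dvd.1 hc1.symm)
      exact_mod_cast this
    have d2 : ((Q : ℕ) : ℤ) ∣ (c : ℤ) - 1 := by
      have := (Nat.modEq_iff_dvd.1 hc2.symm)
      exact_mod_cast this
    have c5 : Nat.Coprime c (5 * P) := by
      rw [Nat.coprime_comm]
      have h5 : Nat.Coprime 5 c := by
        rw [Nat.Prime.coprime_iff_not_dvd (by norm_num)]
        intro h
        have h1 : (5 : ℤ) ∣ (c : ℤ) - 2 := (Dvd.intro _ (by push_cast; rfl)).trans d1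
        omega
      have : Nat.Coprime (5 ^ (B.factorization 5 + 1)) c := Nat.Coprime.pow_left _ h5
      rwa [pow_succ, mul_comm] at this
    have cQ : Nat.Coprime c Q := by
      have hg : ((Nat.gcd c Q : ℕ) : ℤ) ∣ 1 := by
        have h1 : ((Nat.gcd c Q : ℕ) : ℤ) ∣ (c : ℤ) := by
          exact_mod_cast Nat.gcd_dvd_left c Q
        have h2 : ((Nat.gcd c Q : ℕ) : ℤ) ∣ (c : ℤ) - 1 :=
          (Int.natCast_dvd_natCast.2 (Nat.gcd_dvd_right c Q)).trans d2
        have := dvd_sub h1 h2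
        simpa using this
      exact Nat.dvd_one.1 (by exact_mod_cast hg)
    have cB : Nat.Coprime c (5 * B) := by
      rw [← hPQ, ← mul_assoc]
      exact Nat.Coprime.mul_right c5 cQ
    obtain ⟨c', hc'⟩ := Int.mod_coprime cB
    have d3 : ((5 * B : ℕ) : ℤ) ∣ (c : ℤ) * c' - 1 := (Int.modEq_iff_dvd.1 hc'.symm)
    push_cast at d1 d3
    refine ⟨c, c', (Dvd.intro _ rfl).trans d1, (Dvd.intro _ rfl).trans d3, fun _ => ⟨?_, d2, ?_⟩⟩
    · exact (Dvd.intro_left _ rfl).trans d1
    · exact (Dvd.intro_left _ rfl).trans d3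


/-- The scaling factors. -/
noncomputable def cc (j : ℕ) : ℤ := (exists_unit j).choose

/-- Their inverses. -/
noncomputable def cd (j : ℕ) : ℤ := (exists_unit j).choose_spec.choose

theorem cc_spec (j : ℕ) : 5 ∣ cc j - 2 ∧ 5 ∣ cc j * cd j - 1 ∧
    (5 ≤ j → ((5 ^ (j.choose 5).factorization 5 : ℕ) : ℤ) ∣ cc j - 2 ∧
      ((j.choose 5 / 5 ^ (j.choose 5).factorization 5 : ℕ) : ℤ) ∣ cc j - 1 ∧
      ((j.choose 5 : ℕ) : ℤ) ∣ cc j * cd j - 1) := (exists_unit j).choose_spec.choose_spec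

/-- Compatibility of the scaling factors with multiplication by `x^[n]`. -/
theorem cc_compat (i n : ℕ) (hi : 5 ≤ i) :
    (((i + n).choose 5 : ℕ) : ℤ) ∣ ((i + n).choose n : ℤ) * (cc (i + n) - cc i) := by
  obtain ⟨-, -, hI⟩ := cc_spec i
  obtain ⟨-, -, hJ⟩ := cc_spec (i + n)
  obtain ⟨a1, a2, -⟩ := hI hi
  obtain ⟨b1, b2, -⟩ := hJ (by omega)
  have hB : i.choose 5 ≠ 0 := (Nat.choose_pos hi).ne'
  have hB' : (i + n).choose 5 ≠ 0 := (Nat.choose_pos (by omega)).ne'
  have hsw := choose_swap i n 5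
  generalize hBe : i.choose 5 = B at *
  generalize hBe' : (i + n).choose 5 = B' at *
  generalize hC : (i + n).choose n = C at *
  have hPQ : 5 ^ B.factorization 5 * (B / 5 ^ B.factorization 5) = B :=
    Nat.ordProj_mul_ordCompl_eq_self B 5
  have hPQ' : 5 ^ B'.factorization 5 * (B' / 5 ^ B'.factorization 5) = B' :=
    Nat.ordProj_mul_ordCompl_eq_self B' 5
  have hcop : Nat.Coprime 5 (B / 5 ^ B.factorization 5) :=
    Nat.coprime_ordCompl (by norm_num) hB
  have hcop' : Nat.Coprime 5 (B' / 5 ^ B'.factorization 5) :=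
    Nat.coprime_ordCompl (by norm_num) hB'
  set Q := B / 5 ^ B.factorization 5 with hQ
  set Q' := B' / 5 ^ B'.factorization 5 with hQ'
  have hc1 : Nat.Coprime (5 ^ B'.factorization 5) Q := Nat.Coprime.pow_left _ hcop
  have hc2 : Nat.Coprime Q' (5 ^ B.factorization 5) := (Nat.Coprime.pow_left _ hcop').symm
  have hc3 : Nat.Coprime (5 ^ B'.factorization 5) Q' := Nat.Coprime.pow_left _ hcop'
  set P := 5 ^ B.factorization 5 with hP
  set P' := 5 ^ B'.factorization 5 with hP'
  have hPB : P' ∣ C * P := by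
    refine hc1.dvd_of_dvd_mul_right ?_
    rw [mul_assoc, hPQ, hsw]
    exact (Dvd.intro _ hPQ').trans (Dvd.intro _ rfl)
  have hQB : Q' ∣ C * Q := by
    refine hc2.dvd_of_dvd_mul_right ?_
    rw [mul_assoc, mul_comm Q P, hPQ, hsw]
    exact (Dvd.intro_left _ hPQ').trans (Dvd.intro _ rfl)
  have hPB' : (P' : ℤ) ∣ (C : ℤ) * (P : ℤ) := by exact_mod_cast hPB
  have hQB' : (Q' : ℤ) ∣ (C : ℤ) * (Q : ℤ) := by exact_mod_cast hQB
  have r1 : (P' : ℤ) ∣ (C : ℤ) * (cc (i + n) - cc i) := by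
    have t1 : (P' : ℤ) ∣ (C : ℤ) * (cc (i + n) - 2) := b1.mul_left _
    have t2 : (P' : ℤ) ∣ (C : ℤ) * (cc i - 2) := hPB'.trans (mul_dvd_mul_left _ a1)
    have := dvd_sub t1 t2
    have e : (C : ℤ) * (cc (i + n) - 2) - (C : ℤ) * (cc i - 2) =
      (C : ℤ) * (cc (i + n) - cc i) := by ring
    rwa [e] at this
  have r2 : (Q' : ℤ) ∣ (C : ℤ) * (cc (i + n) - cc i) := by
    have t1 : (Q' : ℤ) ∣ (C : ℤ) * (cc (i + n) - 1) := b2.mul_left _
    have t2 : (Q' : ℤ) ∣ (C : ℤ) * (cc i - 1) := hQB'.trans (mul_dvd_mul_left _ a2)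
    have := dvd_sub t1 t2
    have e : (C : ℤ) * (cc (i + n) - 1) - (C : ℤ) * (cc i - 1) =
      (C : ℤ) * (cc (i + n) - cc i) := by ring
    rwa [e] at this
  have := (Nat.isCoprime_iff_coprime.2 hc3).mul_dvd r1 r2
  rw [← hPQ']
  push_cast
  exact this

theorem diag_le (u u' c : ℤ) (h : (5 : ℤ) ∣ c * u - u') (j : ℤ) :
    L u j ≤ (L u' j).comap (diag c) := by
  obtain ⟨w, hw⟩ := h
  rintro ⟨a, b⟩ hp
  rw [AddSubgroup.mem_comap, mem_L]
  rcases hp with hj | ⟨y0, y1, y2, y3, y4, h1, h2⟩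
  · exact Or.inl hj
  · right
    refine ⟨y0, c * y1, y2, y3, c * y4 + w * y2, h1, ?_⟩
    change c * b = _
    have h2' : b = (j.toNat.choose 5 : ℤ) * y1 + (j.toNat.choose 25 : ℤ) * (u * y2 + 5 * y4) := h2
    rw [h2']
    linear_combination (j.toNat.choose 25 : ℤ) * y2 * hw

/-- A family of scalings gives a map of truncations. -/
def scaleHom (u u' : ℤ) (c : ℕ → ℤ) (h : ∀ j, (5 : ℤ) ∣ c j * u - u')
    (hc : ∀ i n : ℕ, 5 ≤ i →
      (((i + n).choose 5 : ℕ) : ℤ) ∣ ((i + n).choose n : ℤ) * (c (i + n) - c i)) :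
    Hom (trunc 5 (Nmod u)) (trunc 5 (Nmod u')) where
  f j :=
    { toFun := fun x => ⟨QuotientAddGroup.map (L u j) (L u' j) (diag (c j.toNat))
        (diag_le u u' _ (h _) j) x.1, fun hj => by
          have := x.2 hj
          rw [this]
          exact map_zero _⟩
      map_zero' := by
        refine Subtype.ext ?_
        exact map_zero _
      map_add' := fun a b => by
        refine Subtype.ext ?_
        exact map_add _ _ _ }
  comm n i j hij x := by
    refine Subtype.ext ?_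
    obtain ⟨x, hx⟩ := x
    rcases lt_or_ge i 5 with hi | hi
    · have : x = 0 := hx hi
      subst this
      change QuotientAddGroup.map (L u j) (L u' j) (diag (c j.toNat))
        (diag_le u u' _ (h _) j)
        ((Nmod u).act n i j hij 0) = (Nmod u').act n i j hij
          (QuotientAddGroup.map (L u i) (L u' i) (diag (c i.toNat))
            (diag_le u u' _ (h _) i) 0)
      rw [map_zero, map_zero]
      erw [map_zero, map_zero]
      rfl
    · change QuotientAddGroup.map (L u j) (L u' j) (diag (c j.toNat))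
        (diag_le u u' _ (h _) j)
        ((Nmod u).act n i j hij x) = (Nmod u').act n i j hij
          (QuotientAddGroup.map (L u i) (L u' i) (diag (c i.toNat))
            (diag_le u u' _ (h _) i) x)
      obtain ⟨p, rfl⟩ := QuotientAddGroup.mk_surjective x
      change QuotientAddGroup.mk (s := L u' j) ((j.toNat.choose n : ℤ) * p.1,
        c j.toNat * ((j.toNat.choose n : ℤ) * p.2)) = QuotientAddGroup.mk (s := L u' j)
        ((j.toNat.choose n : ℤ) * p.1, (j.toNat.choose n : ℤ) * (c i.toNat * p.2))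
      rw [QuotientAddGroup.eq, mem_L]
      obtain ⟨I, rfl⟩ := Int.eq_ofNat_of_zero_le (le_trans (by norm_num) hi : 0 ≤ i)
      have e1 : j.toNat = I + n := by omega
      obtain ⟨w, hw⟩ := hc I n (by omega)
      right
      rw [e1, Int.toNat_natCast]
      refine ⟨0, -w * p.2, 0, 0, 0, ?_, ?_⟩
      · change -(((I + n).choose n : ℤ) * p.1) + ((I + n).choose n : ℤ) * p.1 = _
        ring
      · change -(c (I + n) * (((I + n).choose n : ℤ) * p.2)) +
          ((I + n).choose n : ℤ) * (c I * p.2) = _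
        linear_combination (-p.2) * hw

theorem scale_scale (u u' : ℤ) (c c' : ℕ → ℤ) (h h' hc hc')
    (hcc : ∀ j : ℕ, 5 ≤ j → ((j.choose 5 : ℕ) : ℤ) ∣ c j * c' j - 1) (j : ℤ)
    (x : (trunc 5 (Nmod u)).carrier j) :
    (scaleHom u' u c' h' hc').f j ((scaleHom u u' c h hc).f j x) = x := by
  refine Subtype.ext ?_
  obtain ⟨x, hx⟩ := x
  rcases lt_or_ge j 5 with hj | hj
  · have : x = 0 := hx hj
    subst this
    change QuotientAddGroup.map (L u' j) (L u j) (diag (c' j.toNat)) _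
      (QuotientAddGroup.map (L u j) (L u' j) (diag (c j.toNat)) _ 0) = 0
    erw [map_zero, map_zero]
  · change QuotientAddGroup.map (L u' j) (L u j) (diag (c' j.toNat)) _
      (QuotientAddGroup.map (L u j) (L u' j) (diag (c j.toNat)) _ x) = x
    obtain ⟨p, rfl⟩ := QuotientAddGroup.mk_surjective x
    change QuotientAddGroup.mk (s := L u j) (p.1, c' j.toNat * (c j.toNat * p.2)) =
      QuotientAddGroup.mk (s := L u j) p
    rw [QuotientAddGroup.eq, mem_L]
    obtain ⟨w, hw⟩ := hcc j.toNat (by omega)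
    right
    refine ⟨0, -w * p.2, 0, 0, 0, ?_, ?_⟩
    · change -p.1 + p.1 = _
      ring
    · change -(c' j.toNat * (c j.toNat * p.2)) + p.2 = _
      linear_combination (-p.2) * hw

/-- Compatibility of the inverse scaling factors. -/
theorem cd_compat (i n : ℕ) (hi : 5 ≤ i) :
    (((i + n).choose 5 : ℕ) : ℤ) ∣ ((i + n).choose n : ℤ) * (cd (i + n) - cd i) := by
  obtain ⟨w, hw⟩ := cc_compat i n hi
  obtain ⟨-, -, hI⟩ := cc_spec i
  obtain ⟨-, -, hJ⟩ := cc_spec (i + n)
  obtain ⟨-, -, v, hv⟩ := hI hi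
  obtain ⟨-, -, v', hv'⟩ := hJ (by omega)
  have hsw := choose_swap i n 5
  have hsw' : ((i + n).choose n : ℤ) * (i.choose 5 : ℤ) =
    ((i + n).choose 5 : ℤ) * ((i + n - 5).choose n : ℤ) := by exact_mod_cast hsw
  -- `C (d_j - d_i) = C d_j (1 - c_i d_i) + C d_i (c_i d_j - 1)` and
  -- `C (c_i d_j - 1) = C (c_j d_j - 1) - C (c_j - c_i) d_j`
  refine ⟨-(cd (i + n) * (((i + n - 5).choose n : ℕ) : ℤ) * v) +
    cd i * (((i + n).choose n : ℤ) * v' - w * cd (i + n)), ?_⟩
  linear_combination (-((i + n).choose n : ℤ) * cd (i + n)) * hv - cd (i + n) * v * hsw' +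
    cd i * ((i + n).choose n : ℤ) * hv' - cd i * cd (i + n) * hw

/-- The truncations `τ_{≥ 5}` of `N_1` and `N_2` are isomorphic. -/
theorem trunc_iso : Iso (trunc 5 (Nmod 1)) (trunc 5 (Nmod 2)) := by
  have h1 : ∀ j, (5 : ℤ) ∣ cc j * 1 - 2 := fun j => by
    rw [mul_one]; exact (cc_spec j).1
  have h2 : ∀ j, (5 : ℤ) ∣ cd j * 2 - 1 := fun j => by
    have a := (cc_spec j).1
    have b := (cc_spec j).2.1
    obtain ⟨v, hv⟩ := a
    obtain ⟨w, hw⟩ := b
    exact ⟨w - v * cd j, by linear_combination hw - cd j * hv⟩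
  refine ⟨scaleHom 1 2 cc h1 cc_compat, scaleHom 2 1 cd h2 cd_compat, ?_, ?_⟩
  · exact scale_scale 1 2 cc cd h1 h2 cc_compat cd_compat
      (fun j hj => ((cc_spec j).2.2 hj).2.2)
  · refine scale_scale 2 1 cd cc h2 h1 cd_compat cc_compat (fun j hj => ?_)
    rw [mul_comm]
    exact ((cc_spec j).2.2 hj).2.2

/-! ### The modules are not isomorphic -/

theorem deg_zero (u : ℤ) (a b c d : ℤ)
    (h : QuotientAddGroup.mk (s := L u 0) (a, b) = QuotientAddGroup.mk (s := L u 0) (c, d)) :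
    a = c ∧ b = d := by
  rw [QuotientAddGroup.eq, mem_L] at h
  rcases h with h | ⟨y0, y1, y2, y3, y4, h1, h2⟩
  · omega
  · have h1' : -a + c = ((0 : ℤ).toNat.choose 1 : ℤ) * y0 +
      ((0 : ℤ).toNat.choose 25 : ℤ) * (y2 + 5 * y3) := h1
    have h2' : -b + d = ((0 : ℤ).toNat.choose 5 : ℤ) * y1 +
      ((0 : ℤ).toNat.choose 25 : ℤ) * (u * y2 + 5 * y4) := h2
    rw [Int.toNat_zero, Nat.choose_eq_zero_of_lt (by norm_num : 0 < 1),
      Nat.choose_eq_zero_of_lt (by norm_num : 0 < 25)] at h1'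
    rw [Int.toNat_zero, Nat.choose_eq_zero_of_lt (by norm_num : 0 < 5),
      Nat.choose_eq_zero_of_lt (by norm_num : 0 < 25)] at h2'
    push_cast at h1' h2'
    constructor <;> linarith

theorem hom_mk {u u' : ℤ} (k : Hom (Nmod u) (Nmod u')) (α β γ δ : ℤ)
    (hE : k.f 0 (QuotientAddGroup.mk (s := L u 0) (1, 0)) =
      QuotientAddGroup.mk (s := L u' 0) (α, β))
    (hF : k.f 0 (QuotientAddGroup.mk (s := L u 0) (0, 1)) =
      QuotientAddGroup.mk (s := L u' 0) (γ, δ)) (a b : ℤ) :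
    k.f 0 (QuotientAddGroup.mk (s := L u 0) (a, b)) =
      QuotientAddGroup.mk (s := L u' 0) (a * α + b * γ, a * β + b * δ) := by
  have e : QuotientAddGroup.mk (s := L u 0) (a, b) =
      a • (QuotientAddGroup.mk (s := L u 0) (1, 0)) +
      b • (QuotientAddGroup.mk (s := L u 0) (0, 1)) := by
    rw [← QuotientAddGroup.mk_zsmul, ← QuotientAddGroup.mk_zsmul, ← QuotientAddGroup.mk_add]
    congr 1
    ext <;> simp
  have e2 : QuotientAddGroup.mk (s := L u' 0) (a * α + b * γ, a * β + b * δ) =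
      a • (QuotientAddGroup.mk (s := L u' 0) (α, β)) +
      b • (QuotientAddGroup.mk (s := L u' 0) (γ, δ)) := by
    rw [← QuotientAddGroup.mk_zsmul, ← QuotientAddGroup.mk_zsmul, ← QuotientAddGroup.mk_add]
    congr 1
  rw [e, e2, ← hE, ← hF]
  exact (map_add (k.f 0) _ _).trans (by
    congr 1
    · exact map_zsmul (k.f 0) _ _
    · exact map_zsmul (k.f 0) _ _)

theorem hom_facts {u u' : ℤ} (k : Hom (Nmod u) (Nmod u')) (α β γ δ : ℤ)
    (hE : k.f 0 (QuotientAddGroup.mk (s := L u 0) (1, 0)) =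
      QuotientAddGroup.mk (s := L u' 0) (α, β))
    (hF : k.f 0 (QuotientAddGroup.mk (s := L u 0) (0, 1)) =
      QuotientAddGroup.mk (s := L u' 0) (γ, δ)) :
    β = 0 ∧ 5 ∣ γ ∧ 5 ∣ u * δ - u' * α := by
  have key : ∀ (n : ℕ) (a b : ℤ), ((n : ℤ).toNat.choose n * a, (n : ℤ).toNat.choose n * b) ∈
      L u (n : ℤ) → (a * α + b * γ, a * β + b * δ) ∈ L u' (n : ℤ) := by
    intro n a b h
    have h1 := k.comm n 0 n (by simp) (QuotientAddGroup.mk (s := L u 0) (a, b))
    rw [act_mk, (QuotientAddGroup.eq_zero_iff _).2 h, hom_mk k α β γ δ hE hF a b, act_mk] at h1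
    have h2 := (QuotientAddGroup.eq_zero_iff _).1 (h1.symm.trans (map_zero (k.f (n : ℤ))))
    simpa using h2
  have c : (25 : ℤ).toNat = 25 := rfl
  have c0 : ((25 : ℤ).toNat.choose 25 : ℤ) = 1 := by rw [c]; norm_num
  have c1 : ((25 : ℤ).toNat.choose 5 : ℤ) = 53130 := by rw [c]; norm_num [Nat.choose]
  have c2 : ((25 : ℤ).toNat.choose 1 : ℤ) = 25 := by norm_num
  have k1 := key 1 1 0 (Or.inr ⟨1, 0, 0, 0, 0, by norm_num, by norm_num⟩)
  have k5 := key 5 0 1 (Or.inr ⟨0, 1, 0, 0, 0, by norm_num, by norm_num⟩)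
  have k25 := key 25 1 u (Or.inr ⟨0, 0, 1, 0, 0, by norm_num, by norm_num⟩)
  have f1 : β = 0 := by
    rcases k1 with h | ⟨y0, y1, y2, y3, y4, h1, h2⟩
    · norm_num at h
    · have h2' : 1 * β + 0 * δ = (((1 : ℕ) : ℤ).toNat.choose 5 : ℤ) * y1 +
        (((1 : ℕ) : ℤ).toNat.choose 25 : ℤ) * (u' * y2 + 5 * y4) := h2
      rw [Int.toNat_natCast, Nat.choose_eq_zero_of_lt (by norm_num : 1 < 5),
        Nat.choose_eq_zero_of_lt (by norm_num : 1 < 25)] at h2'
      push_cast at h2'
      linarith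
  have f2 : 5 ∣ γ := by
    rcases k5 with h | ⟨y0, y1, y2, y3, y4, h1, h2⟩
    · norm_num at h
    · have h1' : 0 * α + 1 * γ = (((5 : ℕ) : ℤ).toNat.choose 1 : ℤ) * y0 +
        (((5 : ℕ) : ℤ).toNat.choose 25 : ℤ) * (y2 + 5 * y3) := h1
      rw [Int.toNat_natCast, Nat.choose_one_right,
        Nat.choose_eq_zero_of_lt (by norm_num : 5 < 25)] at h1'
      push_cast at h1'
      exact ⟨y0, by linarith⟩
  refine ⟨f1, f2, ?_⟩
  rcases k25 with h | ⟨y0, y1, y2, y3, y4, h1, h2⟩
  · norm_num at h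
  · have h1' : 1 * α + u * γ = ((25 : ℤ).toNat.choose 1 : ℤ) * y0 +
      ((25 : ℤ).toNat.choose 25 : ℤ) * (y2 + 5 * y3) := h1
    have h2' : 1 * β + u * δ = ((25 : ℤ).toNat.choose 5 : ℤ) * y1 +
      ((25 : ℤ).toNat.choose 25 : ℤ) * (u' * y2 + 5 * y4) := h2
    rw [c0, c2] at h1'
    rw [c0, c1, f1] at h2'
    obtain ⟨w, hw⟩ := f2
    refine ⟨10626 * y1 + y4 + u' * (u * w - 5 * y0 - y3), ?_⟩
    linear_combination h2' - u' * h1' + u' * u * hw

theorem not_iso : ¬ Iso (Nmod 1) (Nmod 2) := by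
  rintro ⟨f, g, hgf, -⟩
  obtain ⟨⟨α, β⟩, hE⟩ := QuotientAddGroup.mk_surjective
    (f.f 0 (QuotientAddGroup.mk (s := L 1 0) (1, 0)))
  obtain ⟨⟨γ, δ⟩, hF⟩ := QuotientAddGroup.mk_surjective
    (f.f 0 (QuotientAddGroup.mk (s := L 1 0) (0, 1)))
  obtain ⟨⟨α', β'⟩, hE'⟩ := QuotientAddGroup.mk_surjective
    (g.f 0 (QuotientAddGroup.mk (s := L 2 0) (1, 0)))
  obtain ⟨⟨γ', δ'⟩, hF'⟩ := QuotientAddGroup.mk_surjective
    (g.f 0 (QuotientAddGroup.mk (s := L 2 0) (0, 1)))
  obtain ⟨hβ, -, h5⟩ := hom_facts f α β γ δ hE.symm hF.symm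
  obtain ⟨hβ', -, -⟩ := hom_facts g α' β' γ' δ' hE'.symm hF'.symm
  have e1 := hgf 0 (QuotientAddGroup.mk (s := L 1 0) (1, 0))
  rw [← hE] at e1
  have e1' := (hom_mk g α' β' γ' δ' hE'.symm hF'.symm α β).symm.trans e1
  have e2 := hgf 0 (QuotientAddGroup.mk (s := L 1 0) (0, 1))
  rw [← hF] at e2
  have e2' := (hom_mk g α' β' γ' δ' hE'.symm hF'.symm γ δ).symm.trans e2
  obtain ⟨a1, -⟩ := deg_zero _ _ _ _ _ e1'
  obtain ⟨-, a2⟩ := deg_zero _ _ _ _ _ e2'
  rw [hβ] at a1
  rw [hβ'] at a2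
  have a1' : α * α' = 1 := by linarith
  have a2' : δ * δ' = 1 := by linarith
  rcases Int.eq_one_or_neg_one_of_mul_eq_one a1' with h | h <;>
    rcases Int.eq_one_or_neg_one_of_mul_eq_one a2' with h' | h' <;>
    · subst h; subst h'; omega

theorem iso_refl (M : GMod) : Iso M M :=
  ⟨⟨fun _ => AddMonoidHom.id _, fun _ _ _ _ _ => rfl⟩,
    ⟨fun _ => AddMonoidHom.id _, fun _ _ _ _ _ => rfl⟩, fun _ _ => rfl, fun _ _ => rfl⟩

/-- Uniqueness of weak fp-envelopes fails over `ℤ`: it is not true that for every nearly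
finitely presented graded `D`-module `M` any two weak fp-envelopes of `M` are isomorphic. -/
theorem result : ¬ ∀ M : GMod, Nfp M →
    ∀ N N' : GMod, IsEnvelope M N → IsEnvelope M N' → Iso N N' := by
  intro h
  have h1 : IsEnvelope (Nmod 1) (Nmod 1) := ⟨finPres 1, 5, iso_refl _⟩
  have h2 : IsEnvelope (Nmod 1) (Nmod 2) := ⟨finPres 2, 5, trunc_iso⟩
  exact not_iso (h (Nmod 1) ⟨_, h1⟩ _ _ h1 h2)

end Pool.Agent.Results.MP_c3bf79_al.TwoEnvelopes
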